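import Pool.Agent.L7h34.PG.All

/-!
# The pentagon condition is not expressible in homotopical first-order logic

The signature with one sort and one binary function symbol, interpreted in a Kan complex `X` with an
operation `μ : X × X → X` (`Pool/Agent/L7h34/PG/{Defs,Sem}.lean`).

* Every formula has an interpretation, and it is unique up to isomorphism.
* No sentence is satisfied by exactly the structures whose operation satisfies the `A_4` condition.
-/

set_option autoImplicit false

namespace Pool.Agent.Results.MP_19b7cf_lc.PentagonInexpressible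

open CategoryTheory MonoidalCategory Pool.Agent.L7h34.PG Pool.Agent.L7h74.HS

theorem result :
    (∀ (X : SSet.{0}) (μ : X ⊗ X ⟶ X) (n : ℕ) (φ : Pool.Agent.L7h34.PG.Form n),
      ∃ E : Over (pw X n), Pool.Agent.L7h34.PG.Interp μ φ E ∧
        ∀ E' : Over (pw X n), Pool.Agent.L7h34.PG.Interp μ φ E' → Nonempty (E ≅ E')) ∧
    ¬ ∃ φ : Pool.Agent.L7h34.PG.Form 0, ∀ (X : SSet.{0}) [SSet.KanComplex X] (μ : X ⊗ X ⟶ X),
      Pool.Agent.L7h34.PG.TrueIn μ φ ↔ AFour μ :=
  ⟨fun _ μ n φ => interp μ n φ, final⟩

end Pool.Agent.Results.MP_19b7cf_lc.PentagonInexpressible
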